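import Pool.Agent.W353.FB.Abs

/-! The laws of the mean squares. -/

set_option autoImplicit false

namespace Pool.Agent.Q11.MS

open Complex Filter Topology ComplexConjugate NumberField IsDedekindDomain
  Pool.Agent.W401.Cheb Pool.Agent.W540.BE Pool.Agent.W353.L1 Pool.Agent.W353.AT
  Pool.Agent.W353.SP Pool.Agent.W353.FB

section
variable {Q : Type*} [Group Q] [Finite Q] {κ : Type*} (K : Finset κ) {n : κ → ℕ}
  (r : ∀ k, Representation ℂ Q (Fin (n k) → ℂ)) (hirr : ∀ k ∈ K, (r k).IsIrreducible)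
  (hne : ∀ k ∈ K, ∀ l ∈ K, k ≠ l → IsEmpty ((r k).Equiv (r l)))
  (hsum : ∑ k ∈ K, n k ^ 2 = Nat.card Q)

/-- the class function `(cn g⁻¹ q⁻¹ + cn g q⁻¹) / 2` -/
noncomputable def hh [Fintype Q] (g q : Q) : ℝ := 1 / 2 * cn g⁻¹ q⁻¹ + 1 / 2 * cn g q⁻¹

omit [Finite Q] in
theorem hh_nonneg [Fintype Q] (g q : Q) : 0 ≤ hh g q := by
  have h1 := cn_nonneg g⁻¹ q⁻¹
  have h2 := cn_nonneg g q⁻¹
  unfold hh
  linarith

theorem sum_hh [Fintype Q] (g : Q) : ∑ q, hh g q = Nat.card Q := by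
  unfold hh
  rw [Finset.sum_add_distrib, ← Finset.mul_sum, ← Finset.mul_sum]
  have h3 : ∀ g : Q, ∑ q, cn g q⁻¹ = (Nat.card Q : ℝ) := by
    intro g
    rw [← sum_cn g, ← Equiv.sum_comp (Equiv.inv Q)]
    exact Finset.sum_congr rfl fun q _ => by rw [Equiv.inv_apply, inv_inv]
  rw [h3, h3]
  ring

include hirr hne hsum in
theorem comb_eq [Fintype Q] (g : Q) (u : ℂ) (q : Q) :
    ∑ k ∈ K, (((u * (r k).character g).re : ℝ) : ℂ) * (r k).character q⁻¹ =
      1 / 2 * (u * ((cn g⁻¹ q⁻¹ : ℝ) : ℂ)) + 1 / 2 * (conj u * ((cn g q⁻¹ : ℝ) : ℂ)) := by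
  rw [column K r hirr hne hsum g⁻¹ q⁻¹, column K r hirr hne hsum g q⁻¹, inv_inv]
  simp only [Finset.mul_sum]
  rw [← Finset.sum_add_distrib]
  refine Finset.sum_congr rfl fun k _ => ?_
  have h2 : (((u * (r k).character g).re : ℝ) : ℂ) =
      1 / 2 * (u * (r k).character g + conj u * (r k).character g⁻¹) := by
    rw [char_inv (r k) g, ← map_mul, Complex.add_conj]
    push_cast
    ring
  rw [h2]
  ring

include hirr hne hsum in
theorem comb_norm [Fintype Q] (g : Q) (u : ℂ) (hu : ‖u‖ = 1) (q : Q) :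
    ‖∑ k ∈ K, (((u * (r k).character g).re : ℝ) : ℂ) * (r k).character q⁻¹‖ ≤ hh g q := by
  rw [comb_eq K r hirr hne hsum]
  refine (norm_add_le _ _).trans (le_of_eq ?_)
  rw [norm_mul, norm_mul, norm_mul, norm_mul, Complex.norm_conj, hu, Complex.norm_real,
    Complex.norm_real, Real.norm_of_nonneg (cn_nonneg _ _), Real.norm_of_nonneg (cn_nonneg _ _)]
  unfold hh
  norm_num

include hirr hne hsum in
theorem comb_one [Fintype Q] (g q : Q) :
    ∑ k ∈ K, ((((r k).character g).re : ℝ) : ℂ) * (r k).character q⁻¹ = ((hh g q : ℝ) : ℂ) := by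
  have h := comb_eq K r hirr hne hsum g 1 q
  simp only [one_mul, map_one] at h
  rw [h]
  unfold hh
  push_cast
  ring

end

section
variable {K : Type} [Field K] [NumberField K] {ι : Type} {l : Filter ι}
  {E : ι → (HeightOneSpectrum (𝓞 K) → ℝ) → ℝ}

theorem RR_zero {k : ℕ} (χ : Representation ℂ (GK K) (Fin k → ℂ))
    (σ : HeightOneSpectrum (𝓞 K) → GK K) (v : HeightOneSpectrum (𝓞 K)) :
    RR χ 0 σ v = (χ.character (σ v)⁻¹).re := by
  unfold RR zz
  rw [Complex.ofReal_zero, zero_mul, neg_zero, Complex.cpow_zero, mul_one]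

/-- **The pointwise law.** -/
theorem ptLaw [l.NeBot] (h : Mn l E) (U : Subgroup (GK K)) [U.Normal]
    (hU : IsOpen (U : Set (GK K))) [Finite (GK K ⧸ U)] {κ : Type} [Fintype κ] {n : κ → ℕ}
    (χ : ∀ k, Representation ℂ (GK K) (Fin (n k) → ℂ)) (hχ : ∀ k, ∀ u ∈ U, χ k u = 1)
    (σ : HeightOneSpectrum (𝓞 K) → GK K) (hσ : ∀ v, IsFrob v (σ v))
    {T : HeightOneSpectrum (𝓞 K) → ℝ} {s : ℝ} (hs : 0 ≤ s) (hT : ∀ v, |T v| ≤ s)
    (hirr : ∀ k, (χ k).IsIrreducible)
    (hne : ∀ k k', k ≠ k' → IsEmpty ((χ k).Equiv (χ k')))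
    (hsum : ∑ k, n k ^ 2 = Nat.card (GK K ⧸ U)) {y q : κ → ℝ}
    (hy : ∀ k, Hs l E (fun v => T v * RR (χ k) 0 σ v) (y k))
    (hq : ∀ k, Hs l E (fun v => T v ^ 2 * RR (χ k) 0 σ v) (q k)) (g : GK K) :
    ‖∑ k, (y k : ℂ) * (χ k).character g‖ ^ 2 ≤ (∑ k, (q k : ℂ) * (χ k).character g).re ∧
      (∑ k, (q k : ℂ) * (χ k).character g).re ≤ s ^ 2 := by
  classical
  let _ : Fintype (GK K ⧸ U) := Fintype.ofFinite _
  set r : ∀ k, Representation ℂ (GK K ⧸ U) (Fin (n k) → ℂ) := fun k => qrep U (χ k) (hχ k)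
    with hr
  have hirr' : ∀ k ∈ (Finset.univ : Finset κ), (r k).IsIrreducible := fun k _ =>
    qrep_irr U (χ k) (hχ k) (hirr k)
  have hne' : ∀ k ∈ (Finset.univ : Finset κ), ∀ l ∈ (Finset.univ : Finset κ), k ≠ l →
      IsEmpty ((r k).Equiv (r l)) := by
    intro k _ l _ hkl
    rw [← not_nonempty_iff, hr, qrep_equiv U (χ k) (hχ k) (χ l) (hχ l), not_nonempty_iff]
    exact hne k l hkl
  set θ : ℂ := ∑ k, (y k : ℂ) * (χ k).character g with hθ
  set u : ℂ := if θ = 0 then 1 else conj θ / (‖θ‖ : ℂ) with hu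
  have hu1 : ‖u‖ = 1 := by
    rw [hu]
    split_ifs with h
    · exact norm_one
    · rw [norm_div, Complex.norm_conj, Complex.norm_real, norm_norm,
        div_self (norm_ne_zero_iff.2 h)]
  have huθ : (u * θ).re = ‖θ‖ := by
    rw [hu]
    split_ifs with h
    · rw [h]; simp
    · rw [div_mul_eq_mul_div, mul_comm (conj θ) θ, Complex.mul_conj, Complex.normSq_eq_norm_sq,
        ← Complex.ofReal_div, Complex.ofReal_re, sq, mul_div_assoc,
        div_self (norm_ne_zero_iff.2 h), mul_one]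
  set c : κ → ℝ := fun k => (u * (χ k).character g).re with hc
  have e1 : ∑ k, c k * y k = ‖θ‖ := by
    rw [← huθ, hθ, Finset.mul_sum, Complex.re_sum]
    refine Finset.sum_congr rfl fun k _ => ?_
    have e2 : u * ((y k : ℂ) * (χ k).character g) = (y k : ℂ) * (u * (χ k).character g) := by
      ring
    rw [e2, Complex.re_ofReal_mul, hc]
    ring
  set x : GK K ⧸ U := QuotientGroup.mk g with hx
  set d : κ → ℝ := fun k => ((χ k).character g).re with hd
  have e3 : (∑ k, (q k : ℂ) * (χ k).character g).re = ∑ k, d k * q k := by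
    rw [Complex.re_sum]
    refine Finset.sum_congr rfl fun k _ => ?_
    rw [Complex.re_ofReal_mul, hd]
    ring
  have hfR : ∀ v, ∑ k, c k * RR (χ k) 0 σ v = (∑ k, (((u * (r k).character x).re : ℝ) : ℂ) *
      (r k).character (QuotientGroup.mk (σ v))⁻¹).re := by
    intro v
    rw [Complex.re_sum]
    refine Finset.sum_congr rfl fun k _ => ?_
    rw [Complex.re_ofReal_mul, RR_zero]
    rfl
  have hdR : ∀ v, ∑ k, d k * RR (χ k) 0 σ v = hh x (QuotientGroup.mk (σ v)) := by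
    intro v
    have h1 := comb_one Finset.univ r hirr' hne' hsum x (QuotientGroup.mk (σ v))
    have h2 := congrArg Complex.re h1
    rw [Complex.re_sum, Complex.ofReal_re] at h2
    rw [← h2]
    refine Finset.sum_congr rfl fun k _ => ?_
    rw [Complex.re_ofReal_mul, RR_zero]
    rfl
  have hcR : ∀ v, |∑ k, c k * RR (χ k) 0 σ v| ≤ hh x (QuotientGroup.mk (σ v)) := by
    intro v
    rw [hfR]
    exact (Complex.abs_re_le_norm _).trans (comb_norm Finset.univ r hirr' hne' hsum x u hu1 _)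
  have hL : Hs l E (fun v => T v * ∑ k, c k * RR (χ k) 0 σ v) ‖θ‖ := by
    refine (h.hsSum Finset.univ fun k _ => h.hsMul (hy k) (c k)).congr (fun v => ?_) e1
    rw [Finset.mul_sum]
    exact Finset.sum_congr rfl fun k _ => by ring
  have hQ : Hs l E (fun v => T v ^ 2 * hh x (QuotientGroup.mk (σ v))) (∑ k, d k * q k) := by
    refine (h.hsSum Finset.univ fun k _ => h.hsMul (hq k) (d k)).congr (fun v => ?_) rfl
    rw [← hdR, Finset.mul_sum]
    exact Finset.sum_congr rfl fun k _ => by ring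
  have hH : Hs l E (fun v => hh x (QuotientGroup.mk (σ v))) 1 := by
    have hcls : ∀ a z : GK K ⧸ U, hh x (z * a * z⁻¹) = hh x a := by
      intro a z
      have h1 : ((hh x (z * a * z⁻¹) : ℝ) : ℂ) = ((hh x a : ℝ) : ℂ) := by
        rw [← comb_one Finset.univ r hirr' hne' hsum x, ← comb_one Finset.univ r hirr' hne' hsum x]
        refine Finset.sum_congr rfl fun k _ => ?_
        have h1 : (z * a * z⁻¹)⁻¹ = z * a⁻¹ * z⁻¹ := by group
        rw [h1, Representation.char_conj]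
      exact_mod_cast h1
    refine ⟨⟨∑ a, hh x a, fun v => ?_⟩, ?_⟩
    · rw [abs_of_nonneg (hh_nonneg _ _)]
      exact Finset.single_le_sum (f := fun a : GK K ⧸ U => hh x a) (fun a _ => hh_nonneg _ _)
        (Finset.mem_univ _)
    · have h1 := h.cheb U hU (fun a => ((hh x a : ℝ) : ℂ)) (fun a z => by rw [hcls]) _
        (avC_ofReal U _) σ hσ
      have h2 : avR U (fun a => hh x a) = 1 := by
        unfold avR
        rw [finsum_eq_sum_of_fintype, sum_hh]
        have h0 : (0 : ℝ) < Nat.card (GK K ⧸ U) := by exact_mod_cast Nat.card_pos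
        exact inv_mul_cancel₀ h0.ne'
      rw [h2] at h1
      refine h1.congr fun i => ?_
      congr 1
  rw [e3]
  constructor
  · have hR : Hs l E (fun v => T v ^ 2 * hh x (QuotientGroup.mk (σ v)) +
        ‖θ‖ ^ 2 * hh x (QuotientGroup.mk (σ v))) (∑ k, d k * q k + ‖θ‖ ^ 2 * 1) :=
      h.hsAdd hQ (h.hsMul hH (‖θ‖ ^ 2))
    have hle := Hs.le h (h.hsMul hL (2 * ‖θ‖)) hR fun v => ?_
    · nlinarith
    · have h1 := hcR v
      have h0 := hh_nonneg x (QuotientGroup.mk (σ v))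
      set H : ℝ := hh x (QuotientGroup.mk (σ v))
      set C : ℝ := ∑ k, c k * RR (χ k) 0 σ v
      have h2 : T v * C ≤ |T v| * H := by
        refine (le_abs_self _).trans ?_
        rw [abs_mul]
        exact mul_le_mul_of_nonneg_left h1 (abs_nonneg _)
      have h3 : 2 * ‖θ‖ * (T v * C) ≤ 2 * ‖θ‖ * (|T v| * H) :=
        mul_le_mul_of_nonneg_left h2 (by positivity)
      have h4 : 2 * ‖θ‖ * |T v| ≤ |T v| ^ 2 + ‖θ‖ ^ 2 := by nlinarith [sq_nonneg (|T v| - ‖θ‖)]
      have h5 : 2 * ‖θ‖ * (|T v| * H) ≤ (|T v| ^ 2 + ‖θ‖ ^ 2) * H := by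
        have := mul_le_mul_of_nonneg_right h4 h0
        linarith
      rw [sq_abs] at h5
      linarith
  · have hle := Hs.le h hQ (h.hsMul hH (s ^ 2)) fun v => ?_
    · linarith
    · refine mul_le_mul_of_nonneg_right ?_ (hh_nonneg _ _)
      rw [← sq_abs]
      exact pow_le_pow_left₀ (abs_nonneg _) (hT v) 2

/-- **Bessel's inequality with the mean square.** -/
theorem bessel2 [l.NeBot] (h : Mn l E) (U : Subgroup (GK K)) [U.Normal]
    (hU : IsOpen (U : Set (GK K))) [Finite (GK K ⧸ U)] {κ : Type*} (S : Finset κ) {n : κ → ℕ}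
    (χ : ∀ k, Representation ℂ (GK K) (Fin (n k) → ℂ)) (hχ : ∀ k, ∀ u ∈ U, χ k u = 1)
    (σ : HeightOneSpectrum (𝓞 K) → GK K) (hσ : ∀ v, IsFrob v (σ v))
    {T : HeightOneSpectrum (𝓞 K) → ℝ} {q : ℝ} (hq : Hs l E (fun v => T v ^ 2) q)
    (hirr : ∀ k ∈ S, (χ k).IsIrreducible)
    (hne : ∀ k ∈ S, ∀ k' ∈ S, k ≠ k' → IsEmpty ((χ k).Equiv (χ k'))) {y : κ → ℝ}
    (hy : ∀ k ∈ S, Hs l E (fun v => T v * RR (χ k) 0 σ v) (y k)) :
    ∑ k ∈ S, (y k) ^ 2 ≤ q := by
  classical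
  set Y : ℝ := ∑ k ∈ S, (y k) ^ 2 with hY
  set g : HeightOneSpectrum (𝓞 K) → ℂ := fun v => ∑ k ∈ S, (y k : ℂ) *
    (χ k).character (σ v)⁻¹ with hg
  have hWg : ∀ v, ∑ k ∈ S, y k * RR (χ k) 0 σ v = (g v).re := by
    intro v
    rw [hg]
    simp only
    rw [Complex.re_sum]
    refine Finset.sum_congr rfl fun k _ => ?_
    rw [Complex.re_ofReal_mul, RR_zero]
  have hgg : ∀ v, ‖g v‖ ^ 2 = ∑ k ∈ S, ∑ k' ∈ S, y k * y k' *
      ((χ k).character (σ v)⁻¹ * conj ((χ k').character (σ v)⁻¹)).re := by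
    intro v
    have h1 : (‖g v‖ ^ 2 : ℝ) = (g v * conj (g v)).re := by
      rw [Complex.mul_conj, Complex.normSq_eq_norm_sq, Complex.ofReal_re]
    rw [h1, hg]
    simp only
    rw [map_sum, Finset.sum_mul_sum, Complex.re_sum]
    refine Finset.sum_congr rfl fun k _ => ?_
    rw [Complex.re_sum]
    refine Finset.sum_congr rfl fun k' _ => ?_
    have h2 : (y k : ℂ) * (χ k).character (σ v)⁻¹ *
        conj ((y k' : ℂ) * (χ k').character (σ v)⁻¹) =
        ((y k * y k' : ℝ) : ℂ) *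
          ((χ k).character (σ v)⁻¹ * conj ((χ k').character (σ v)⁻¹)) := by
      rw [map_mul, Complex.conj_ofReal]
      push_cast
      ring
    rw [h2, Complex.re_ofReal_mul]
  have hmean : Hs l E (fun v => ‖g v‖ ^ 2) Y := by
    have h1 := h.hsSum S fun k hk => h.hsSum S fun k' hk' =>
      h.hsMul (h.ortho U hU χ hχ σ hσ (hirr k hk) (hirr k' hk')) (y k * y k')
    refine h1.congr (fun v => (hgg v).symm) ?_
    rw [hY]
    refine Finset.sum_congr rfl fun k hk => ?_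
    rw [Finset.sum_eq_single k]
    · rw [if_pos ⟨Representation.Equiv.refl _⟩]
      ring
    · intro k' hk' hkk
      rw [if_neg (not_nonempty_iff.2 (hne k hk k' hk' (Ne.symm hkk))), mul_zero]
    · intro hk'
      exact absurd hk hk'
  have hL : Hs l E (fun v => T v * ∑ k ∈ S, y k * RR (χ k) 0 σ v) Y := by
    refine (h.hsSum S fun k hk => h.hsMul (hy k hk) (y k)).congr (fun v => ?_) ?_
    · rw [Finset.mul_sum]
      exact Finset.sum_congr rfl fun k _ => by ring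
    · exact Finset.sum_congr rfl fun k _ => by ring
  have hle := Hs.le h (h.hsMul hL 2) (h.hsAdd hq hmean) fun v => ?_
  · linarith
  · rw [hWg]
    have h1 : (g v).re ^ 2 ≤ ‖g v‖ ^ 2 := by
      rw [← sq_abs]
      exact pow_le_pow_left₀ (abs_nonneg _) (Complex.abs_re_le_norm _) 2
    nlinarith [sq_nonneg (T v - (g v).re)]

end

end Pool.Agent.Q11.MS
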