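import Pool.Agent.W353.FB.Defs

/-!
# Mean squares of the transcendental parts over all number fields: definitions

`P` is a relation between finite fields with a homomorphism from `𝓞_K` and real numbers (the values at
the primes), and `W`, with the action `ρ` of the absolute Galois group of `K`, is a part of the values of
`P` (`Pool.Agent.W353.FB.IsPartOf`).  `T_v` is the difference of the value at `v` and the trace of the
geometric Frobenius on `W`.
-/

set_option autoImplicit false

namespace Pool.Agent.Q11.MS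

open NumberField IsDedekindDomain Filter Topology
open Pool.Agent.W353.TD (rank)
open Pool.Agent.W353.AT (IsArtin IsFrobeniusElement twistRank)
open Pool.Agent.W353.SP (Spectrum)
open Pool.Agent.W353.FB (LocalValue ValueAt IsTrace IsSystem IsTwistedSystem average residue)

/-- The values `z = b(X) / q`: `b(X)` is the trace on `H²` of the projective variety `X` over `K`, of
dimension at most `r`. -/
def divisorValue {K : Type} [Field K] {n : ℕ} (X : Set (MvPolynomial (Fin n) (𝓞 K))) (r : ℕ) :
    LocalValue K :=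
  fun κ _ φ z => ∃ a : ℝ, IsTrace X r 2 φ a ∧ z = a / Nat.card κ

section
variable {K : Type} [Field K] [NumberField K] {W : Type} [AddCommGroup W] [Module ℚ W]

/-- Off the finite set `R`, `b v` is the square of `T_v` times the real part of the character of `χ` at
the geometric Frobenius. -/
def IsTwistedSquareSystem (P : LocalValue K) (ρ : Representation ℚ Gal(AlgebraicClosure K/K) W)
    {n : ℕ} (χ : Representation ℂ Gal(AlgebraicClosure K/K) (Fin n → ℂ))
    (R : Finset (HeightOneSpectrum (𝓞 K))) (b : HeightOneSpectrum (𝓞 K) → ℝ) : Prop :=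
  ∀ v, v ∉ R → ∃ z : ℝ, ValueAt P v z ∧ ∀ σ, IsFrobeniusElement v σ →
    b v = (z - (LinearMap.trace ℚ W (ρ σ⁻¹) : ℝ)) ^ 2 * (χ.character σ⁻¹).re

/-- Off the finite set `R` the numbers `b w` are bounded, and `b w = T_v²` for the primes `w` of `F` of
degree one over a prime `v` of `K`. -/
def IsSquareSystem (P : LocalValue K) (ρ : Representation ℚ Gal(AlgebraicClosure K/K) W)
    {F : Type} [Field F] [NumberField F] [Algebra K F]
    (R : Finset (HeightOneSpectrum (𝓞 F))) (b : HeightOneSpectrum (𝓞 F) → ℝ) : Prop :=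
  (∃ C : ℝ, ∀ w, w ∉ R → |b w| ≤ C) ∧
  ∀ w, w ∉ R → ∀ v : HeightOneSpectrum (𝓞 K),
    w.asIdeal.comap (algebraMap (𝓞 K) (𝓞 F)) = v.asIdeal →
    Ideal.absNorm w.asIdeal = Ideal.absNorm v.asIdeal → ∃ z : ℝ, ValueAt P v z ∧
      ∀ σ, IsFrobeniusElement v σ → b w = (z - (LinearMap.trace ℚ W (ρ σ⁻¹) : ℝ)) ^ 2

end

/-- The laws of `Spectrum` for `δ` and `y`, with the bound `s`, and for `r` and `q`, with the bound `s²`,
and:
* `δ(F)² ≤ r(F) ≤ s²` for all number fields `F ⊇ K`;
* `∑ y(χ_k)² ≤ q(1)`, `1` the trivial representation, for all finite families of pairwise inequivalent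
  irreducible Artin representations;
* let `U` be an open normal subgroup of the absolute Galois group of `K`, that is the absolute Galois
  group of a finite Galois extension `M` of `K`, and let `χ_k` be all the irreducible representations of
  `Gal(M/K)`; then the class functions `θ = ∑ y(χ_k) χ_k` and `Θ = ∑ q(χ_k) χ_k` on `Gal(M/K)` satisfy
  `|θ(g)|² ≤ Re Θ(g) ≤ s²` for all `g`. -/
def SquareLaws (K : Type) [Field K] (s : ℕ)
    (δ r : IntermediateField K (AlgebraicClosure K) → ℝ)
    (y q : ∀ n : ℕ, Representation ℂ Gal(AlgebraicClosure K/K) (Fin n → ℂ) → ℝ) : Prop :=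
  Spectrum K s δ y ∧ Spectrum K (s ^ 2) r q ∧
  (∀ (F : IntermediateField K (AlgebraicClosure K)) [NumberField F],
    δ F ^ 2 ≤ r F ∧ r F ≤ (s : ℝ) ^ 2) ∧
  (∀ (κ : Type) [Fintype κ] (n : κ → ℕ)
    (χ : ∀ k, Representation ℂ Gal(AlgebraicClosure K/K) (Fin (n k) → ℂ)),
    (∀ k, IsArtin (χ k)) → (∀ k, (χ k).IsIrreducible) →
    (∀ k k', k ≠ k' → IsEmpty ((χ k).Equiv (χ k'))) →
    ∑ k, y (n k) (χ k) ^ 2 ≤
      q 1 (Representation.trivial ℂ Gal(AlgebraicClosure K/K) (Fin 1 → ℂ))) ∧
  ∀ (U : Subgroup Gal(AlgebraicClosure K/K)) [U.Normal],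
    IsOpen (U : Set Gal(AlgebraicClosure K/K)) → ∀ (κ : Type) [Fintype κ] (n : κ → ℕ)
    (χ : ∀ k, Representation ℂ Gal(AlgebraicClosure K/K) (Fin (n k) → ℂ)),
    (∀ k, ∀ u ∈ U, χ k u = 1) → (∀ k, (χ k).IsIrreducible) →
    (∀ k k', k ≠ k' → IsEmpty ((χ k).Equiv (χ k'))) →
    ∑ k, n k ^ 2 = Nat.card (Gal(AlgebraicClosure K/K) ⧸ U) →
    ∀ g, ‖∑ k, (y (n k) (χ k) : ℂ) * (χ k).character g‖ ^ 2 ≤
        (∑ k, (q (n k) (χ k) : ℂ) * (χ k).character g).re ∧
      (∑ k, (q (n k) (χ k) : ℂ) * (χ k).character g).re ≤ (s : ℝ) ^ 2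

section
variable {K : Type} [Field K] [NumberField K] {W : Type} [AddCommGroup W] [Module ℚ W]

/-- Let `s = N - dim W`.  Every sequence `T_j → ∞` has a subsequence along which the averages
`T⁻¹ ∑_{q_v ≤ T} b_v log q_v` converge, for the values `b_v` and for the squares `T_v²` at the primes of
all number fields `F ⊇ K`, and for the values and the squares `T_v²` twisted by `χ`, for all Artin
representations `χ` of `K`.  Let `rank ρ F - δ F`, `r F`, `twistRank ρ χ - y χ` and `q χ` be the limits;
then they satisfy the laws of `SquareLaws`. -/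
def TauberianSquares (P : LocalValue K) (N : ℕ)
    (ρ : Representation ℚ Gal(AlgebraicClosure K/K) W) : Prop :=
  ∀ T : ℕ → ℕ, Tendsto T atTop atTop → ∃ φ : ℕ → ℕ, StrictMono φ ∧
    ∃ (δ r : IntermediateField K (AlgebraicClosure K) → ℝ)
      (y q : ∀ n : ℕ, Representation ℂ Gal(AlgebraicClosure K/K) (Fin n → ℂ) → ℝ),
      (∀ (F : IntermediateField K (AlgebraicClosure K)) [NumberField F]
        (R : Finset (HeightOneSpectrum (𝓞 F))) (b : HeightOneSpectrum (𝓞 F) → ℝ),
        (IsSystem P R b →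
          Tendsto (fun j => average R b (T (φ j))) atTop (𝓝 ((rank ρ F : ℝ) - δ F))) ∧
        (IsSquareSystem P ρ R b →
          Tendsto (fun j => average R b (T (φ j))) atTop (𝓝 (r F)))) ∧
      (∀ (n : ℕ) (χ : Representation ℂ Gal(AlgebraicClosure K/K) (Fin n → ℂ)), IsArtin χ →
        ∀ (R : Finset (HeightOneSpectrum (𝓞 K))) (b : HeightOneSpectrum (𝓞 K) → ℝ),
        (IsTwistedSystem P χ R b →
          Tendsto (fun j => average R b (T (φ j))) atTop (𝓝 ((twistRank ρ χ : ℝ) - y n χ))) ∧
        (IsTwistedSquareSystem P ρ χ R b →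
          Tendsto (fun j => average R b (T (φ j))) atTop (𝓝 (q n χ)))) ∧
      SquareLaws K (N - Module.finrank ℚ W) δ r y q

/-- The same for the analytic averages: every sequence `s_j → 1+` has a subsequence along which
`(s - 1) ∑ b_v (log q_v) q_v^{-s}` converges, for the values `b_v` and for the squares `T_v²` at the
primes of all number fields `F ⊇ K`, and for the values and the squares `T_v²` twisted by `χ`, for all
Artin representations `χ` of `K`, and for the limits the laws of `SquareLaws` hold. -/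
def AnalyticSquares (P : LocalValue K) (N : ℕ)
    (ρ : Representation ℚ Gal(AlgebraicClosure K/K) W) : Prop :=
  ∀ e : ℕ → ℝ, Tendsto e atTop (𝓝[>] 1) → ∃ φ : ℕ → ℕ, StrictMono φ ∧
    ∃ (δ r : IntermediateField K (AlgebraicClosure K) → ℝ)
      (y q : ∀ n : ℕ, Representation ℂ Gal(AlgebraicClosure K/K) (Fin n → ℂ) → ℝ),
      (∀ (F : IntermediateField K (AlgebraicClosure K)) [NumberField F]
        (R : Finset (HeightOneSpectrum (𝓞 F))) (b : HeightOneSpectrum (𝓞 F) → ℝ),
        (IsSystem P R b →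
          Tendsto (fun j => residue R b (e (φ j))) atTop (𝓝 ((rank ρ F : ℝ) - δ F))) ∧
        (IsSquareSystem P ρ R b →
          Tendsto (fun j => residue R b (e (φ j))) atTop (𝓝 (r F)))) ∧
      (∀ (n : ℕ) (χ : Representation ℂ Gal(AlgebraicClosure K/K) (Fin n → ℂ)), IsArtin χ →
        ∀ (R : Finset (HeightOneSpectrum (𝓞 K))) (b : HeightOneSpectrum (𝓞 K) → ℝ),
        (IsTwistedSystem P χ R b →
          Tendsto (fun j => residue R b (e (φ j))) atTop (𝓝 ((twistRank ρ χ : ℝ) - y n χ))) ∧
        (IsTwistedSquareSystem P ρ χ R b →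
          Tendsto (fun j => residue R b (e (φ j))) atTop (𝓝 (q n χ)))) ∧
      SquareLaws K (N - Module.finrank ℚ W) δ r y q

end

end Pool.Agent.Q11.MS
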