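import Pool.Agent.Q11.MS.Spec
import Pool.Agent.Q11.MS.Defs
import Pool.Agent.W353.FB.Final

/-! Mean squares of the transcendental parts over all number fields: the theorems. -/

set_option autoImplicit false

namespace Pool.Agent.Q11.MS

open Complex Filter Topology NumberField IsDedekindDomain Polynomial
  Pool.Agent.W401.Cheb Pool.Agent.W540.BE Pool.Agent.W353.L1 Pool.Agent.W353.AT
  Pool.Agent.W353.SP Pool.Agent.W353.FB
open Pool.Agent.H921R2.TatePole (kerPrime)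
open Pool.Agent.W353.NF (act fixn fixn_le vx)
open Pool.Agent.W353.TD (ch rank)
open Pool.Agent.W353.TP (HX res)

section
variable {K : Type} [Field K] {n : ℕ}

theorem divisor_uniq (X : Set (MvPolynomial (Fin n) (𝓞 K))) {r : ℕ} (hr : 1 ≤ r) :
    Uniq (divisorValue X r) := by
  rintro κ _ _ φ z z' ⟨a, h1, rfl⟩ ⟨a', h1', rfl⟩
  rw [isTrace_unique (by omega) h1 h1']

end

section
variable {K : Type} [Field K] [NumberField K] {W : Type} [AddCommGroup W] [Module ℚ W]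
  [FiniteDimensional ℚ W] {ρ : Representation ℚ (GK K) W} {P : LocalValue K} {N : ℕ}

/-- the squares at the primes of `K` -/
theorem sq_bd {t : HeightOneSpectrum (𝓞 K) → ℝ} (ht : Bd t)
    (hρ : ∃ U : Subgroup (GK K), IsOpen (U : Set (GK K)) ∧ ∀ u ∈ U, ρ u = 1)
    (σ : HeightOneSpectrum (𝓞 K) → GK K) (hσ : ∀ v, IsFrob v (σ v)) :
    Bd fun v => (t v - ch ρ (σ v)⁻¹) ^ 2 := by
  have hch : Bd fun v => ch ρ (σ v)⁻¹ := by
    have h7 := ((mnN K).twMean ρ hρ ⟨1, Representation.trivial ℂ (GK K) (Fin 1 → ℂ)⟩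
      ⟨⊤, isOpen_univ, fun u _ => rfl⟩ σ hσ).1
    obtain ⟨B, hB⟩ := h7
    refine ⟨B, fun v => ?_⟩
    have h7 := hB v
    change |ch ρ (σ v)⁻¹ * RR (Representation.trivial ℂ (GK K) (Fin 1 → ℂ)) 0 σ v| ≤ B at h7
    rw [RR_zero] at h7
    have e : (Representation.trivial ℂ (GK K) (Fin 1 → ℂ)).character (σ v)⁻¹ = 1 := by
      unfold Representation.character
      have e1 : (Representation.trivial ℂ (GK K) (Fin 1 → ℂ)) (σ v)⁻¹ = LinearMap.id := rfl
      rw [e1, LinearMap.trace_id, Module.finrank_fin_fun, Nat.cast_one]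
    rwa [e, Complex.one_re, mul_one] at h7
  have hx : Bd fun v => t v + -ch ρ (σ v)⁻¹ := ht.add hch.neg
  obtain ⟨B, hB⟩ := hx.mul hx
  refine ⟨B, fun v => ?_⟩
  have e : (t v - ch ρ (σ v)⁻¹) ^ 2 = (t v + -ch ρ (σ v)⁻¹) * (t v + -ch ρ (σ v)⁻¹) := by ring
  change |(t v - ch ρ (σ v)⁻¹) ^ 2| ≤ B
  rw [e]
  exact hB v

/-- the squares over `F` -/
theorem exists_sq {F : Type} [Field F] [NumberField F] [Algebra K F] (hu : Uniq P)
    {t : HeightOneSpectrum (𝓞 K) → ℝ} (htv : ∀ᶠ v in cofinite, ValueAt P v (t v))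
    (σ : HeightOneSpectrum (𝓞 K) → GK K) (hσ : ∀ v, IsFrob v (σ v))
    {R : Finset (HeightOneSpectrum (𝓞 F))} {b : HeightOneSpectrum (𝓞 F) → ℝ}
    (hb : IsSquareSystem P ρ R b) :
    ∃ a : HeightOneSpectrum (𝓞 F) → ℝ, Bd a ∧ BdOff R b ∧ (∀ᶠ v in cofinite, v ∉ R → b v = a v) ∧
      ∀ᶠ p : Nat.Primes in cofinite, ∀ ψ : 𝓞 F →+* ZMod (p : ℕ),
        a (kerPrime p ψ).1.1 = (t (vx ⟨p, res K ψ⟩) - ch ρ (σ (vx ⟨p, res K ψ⟩))⁻¹) ^ 2 := by
  classical
  obtain ⟨⟨C, hC⟩, hb1⟩ := hb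
  have hC' : ∀ v, v ∉ R → |b v| ≤ |C| := fun v hv => (hC v hv).trans (le_abs_self C)
  refine ⟨fun v => if v ∈ R then 0 else b v, ⟨|C|, fun v => ?_⟩, ⟨|C|, abs_nonneg C, hC'⟩,
    Filter.Eventually.of_forall fun v hv => (if_neg hv).symm, ?_⟩
  · by_cases h : v ∈ R
    · simp only [if_pos h, abs_zero]
      exact abs_nonneg C
    · simp only [if_neg h]
      exact hC' v h
  · rw [Filter.eventually_cofinite] at htv
    filter_upwards [finite_below (F := F) R.finite_toSet, finite_below (F := K) htv]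
      with p h1 h2 ψ
    have h3 : (kerPrime p ψ).1.1 ∉ R := h1 ψ
    have h4 : ValueAt P (vx (⟨p, res K ψ⟩ : HX K)) (t (vx ⟨p, res K ψ⟩)) := by
      by_contra hcon
      exact h2 (res K ψ) hcon
    simp only [if_neg h3]
    obtain ⟨z, hz1, hz2⟩ := hb1 _ h3 (vx ⟨p, res K ψ⟩) (by
      change (RingHom.ker ψ).comap (algebraMap (𝓞 K) (𝓞 F)) = RingHom.ker (res K ψ)
      rw [RingHom.comap_ker]
      rfl) ((Pool.Agent.H341R2.nm_kerPrime p ψ).trans
        (Pool.Agent.H341R2.nm_kerPrime p (res K ψ)).symm)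
    rw [hz2 _ (hσ _), valueAt_unique hu hz1 h4]
    rfl

/-- the twisted squares -/
theorem exists_tsq (hu : Uniq P) {t : HeightOneSpectrum (𝓞 K) → ℝ} (ht : Bd t)
    (hρ : ∃ U : Subgroup (GK K), IsOpen (U : Set (GK K)) ∧ ∀ u ∈ U, ρ u = 1)
    (htv : ∀ᶠ v in cofinite, ValueAt P v (t v)) (σ : HeightOneSpectrum (𝓞 K) → GK K)
    (hσ : ∀ v, IsFrob v (σ v)) {k : ℕ} {χ : Representation ℂ (GK K) (Fin k → ℂ)}
    (hχ : IsArtin χ) {R : Finset (HeightOneSpectrum (𝓞 K))} {b : HeightOneSpectrum (𝓞 K) → ℝ}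
    (hb : IsTwistedSquareSystem P ρ χ R b) :
    Bd (fun v => (t v - ch ρ (σ v)⁻¹) ^ 2 * RR χ 0 σ v) ∧ BdOff R b ∧
      ∀ᶠ v in cofinite, v ∉ R → b v = (t v - ch ρ (σ v)⁻¹) ^ 2 * RR χ 0 σ v := by
  classical
  have hbd : Bd fun v => (t v - ch ρ (σ v)⁻¹) ^ 2 * RR χ 0 σ v :=
    (sq_bd ht hρ σ hσ).mul (bd_RR (x := ⟨k, χ⟩) hχ σ)
  have hev : ∀ᶠ v in cofinite, v ∉ R → b v = (t v - ch ρ (σ v)⁻¹) ^ 2 * RR χ 0 σ v := by
    filter_upwards [htv] with v hv hvR
    obtain ⟨z, hz, hbz⟩ := hb v hvR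
    rw [hbz (σ v) (hσ v), valueAt_unique hu hz hv, RR_zero]
    rfl
  refine ⟨hbd, ?_, hev⟩
  obtain ⟨B, hB⟩ := hbd
  have hfin := hev
  rw [Filter.eventually_cofinite] at hfin
  refine ⟨|B| + ∑ v ∈ hfin.toFinset, |b v|, by positivity, fun v hv => ?_⟩
  by_cases h : b v = (t v - ch ρ (σ v)⁻¹) ^ 2 * RR χ 0 σ v
  · rw [h]
    have h1 : |(t v - ch ρ (σ v)⁻¹) ^ 2 * RR χ 0 σ v| ≤ |B| := (hB v).trans (le_abs_self B)
    have h2 : 0 ≤ ∑ v ∈ hfin.toFinset, |b v| := Finset.sum_nonneg fun _ _ => abs_nonneg _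
    linarith
  · have h1 : v ∈ hfin.toFinset := by
      rw [Set.Finite.mem_toFinset, Set.mem_ofPred_eq]
      exact fun hcon => h (hcon hv)
    have h2 : |b v| ≤ ∑ v ∈ hfin.toFinset, |b v| :=
      Finset.single_le_sum (f := fun v => |b v|) (fun v _ => abs_nonneg _) h1
    have h3 := abs_nonneg B
    linarith

/-- equivalent representations -/
theorem cong_Q {ι : Type} {l : Filter ι} [l.NeBot] {E : ι → (HeightOneSpectrum (𝓞 K) → ℝ) → ℝ}
    {σ : HeightOneSpectrum (𝓞 K) → GK K} {f : HeightOneSpectrum (𝓞 K) → ℝ}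
    {qA : MRep (GK K) → ℝ}
    (h2 : ∀ x, IsArtin x.2 → Hs l E (fun v => f v * RR x.2 0 σ v) (qA x))
    (x y : MRep (GK K)) (hx : IsArtin x.2) (hy : IsArtin y.2) (hs : Sim x y) : qA x = qA y :=
  (h2 x hx).unique (h2 y hy) fun v => by rw [hs.RR]

/-- **Natural averages over all number fields.** -/
theorem tauberian (hu : Uniq P) (hP : IsPartOf P N ρ) : TauberianSquares P N ρ := by
  classical
  intro T hT
  choose σ hσ using exists_isFrob (F := K)
  obtain ⟨t, ht, htv, hts⟩ := exists_t hP σ hσ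
  obtain ⟨φ, hφ, δF, rF, δA, qA, h1, h2, g1, g2, ⟨h3, h4, h5⟩, ⟨g3, g4, g5⟩, k1, k2, k3⟩ :=
    spectralSq (mnN K) ht hP.1 (N - Module.finrank ℚ W) σ hσ hts hT
  have hT' : Tendsto (fun j => T (φ j)) atTop atTop := hT.comp hφ.tendsto_atTop
  refine ⟨φ, hφ, δF, rF, fun k χ => δA ⟨k, χ⟩, fun k χ => qA ⟨k, χ⟩, ?_, ?_,
    to_spectrum h3 (cong_A ((mnN K).comp hT') hP.1 hσ h2) h4 h5,
    to_spectrum g3 (cong_Q g2) g4 g5, k1, k2, k3⟩
  · intro F _ R b
    refine ⟨fun hb => ?_, fun hb => ?_⟩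
    · obtain ⟨a, ha, -, hba, hcomp⟩ := exists_a hu htv hb
      have h6 := EN_FT σ hσ ht ha hcomp
      have h7 := LA_EN' R ha hba
      have h9 := ((h7.add h6).comp hT').add (h1 F).2
      rw [add_zero, zero_add] at h9
      refine h9.congr fun j => ?_
      rw [Function.comp_apply, average_eq]
      ring
    · obtain ⟨a, ha, -, hba, hcomp⟩ := exists_sq hu htv σ hσ hb
      have h6 := EN_FT σ hσ (sq_bd ht hP.1 σ hσ) ha hcomp
      have h7 := LA_EN' R ha hba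
      have h9 := ((h7.add h6).comp hT').add (g1 F).2
      rw [add_zero, zero_add] at h9
      refine h9.congr fun j => ?_
      rw [Function.comp_apply, average_eq]
      ring
  · intro k χ hχ R b
    refine ⟨fun hb => ?_, fun hb => ?_⟩
    · obtain ⟨hbd, -, hev⟩ := exists_tw hu ht htv σ hσ hχ hb
      have h6 := LA_EN' R hbd hev
      have h9 := (h6.comp hT').add (h2 ⟨k, χ⟩ hχ).2
      rw [zero_add] at h9
      refine h9.congr fun j => ?_
      rw [Function.comp_apply, average_eq, sub_add_cancel]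
    · obtain ⟨hbd, -, hev⟩ := exists_tsq hu ht hP.1 htv σ hσ hχ hb
      have h6 := LA_EN' R hbd hev
      have h9 := (h6.comp hT').add (g2 ⟨k, χ⟩ hχ).2
      rw [zero_add] at h9
      refine h9.congr fun j => ?_
      rw [Function.comp_apply, average_eq, sub_add_cancel]

/-- **Analytic averages over all number fields.** -/
theorem analytic (hu : Uniq P) (hP : IsPartOf P N ρ) : AnalyticSquares P N ρ := by
  classical
  intro e he
  choose σ hσ using exists_isFrob (F := K)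
  obtain ⟨t, ht, htv, hts⟩ := exists_t hP σ hσ
  obtain ⟨φ, hφ, δF, rF, δA, qA, h1, h2, g1, g2, ⟨h3, h4, h5⟩, ⟨g3, g4, g5⟩, k1, k2, k3⟩ :=
    spectralSq (mnA K) ht hP.1 (N - Module.finrank ℚ W) σ hσ hts he
  have he' : Tendsto (fun j => e (φ j)) atTop (𝓝[>] 1) := he.comp hφ.tendsto_atTop
  refine ⟨φ, hφ, δF, rF, fun k χ => δA ⟨k, χ⟩, fun k χ => qA ⟨k, χ⟩, ?_, ?_,
    to_spectrum h3 (cong_A ((mnA K).comp he') hP.1 hσ h2) h4 h5,
    to_spectrum g3 (cong_Q g2) g4 g5, k1, k2, k3⟩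
  · intro F _ R b
    refine ⟨fun hb => ?_, fun hb => ?_⟩
    · obtain ⟨a, ha, hbR, hba, hcomp⟩ := exists_a hu htv hb
      have h6 := EN_FT σ hσ ht ha hcomp
      have hg : Bd fun v => t v * (fixn K F (σ v) : ℝ) := ht.mul (bd_fixn σ)
      have h7 := DS_diff hbR ha hg hba h6
      have h9 := (h7.comp he').add (h1 F).2
      rw [zero_add] at h9
      refine h9.congr fun j => ?_
      rw [Function.comp_apply, residue_eq, sub_add_cancel]
    · obtain ⟨a, ha, hbR, hba, hcomp⟩ := exists_sq hu htv σ hσ hb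
      have hsq := sq_bd ht hP.1 σ hσ
      have h6 := EN_FT σ hσ hsq ha hcomp
      have hg : Bd fun v => (t v - ch ρ (σ v)⁻¹) ^ 2 * (fixn K F (σ v) : ℝ) :=
        hsq.mul (bd_fixn σ)
      have h7 := DS_diff hbR ha hg hba h6
      have h9 := (h7.comp he').add (g1 F).2
      rw [zero_add] at h9
      refine h9.congr fun j => ?_
      rw [Function.comp_apply, residue_eq, sub_add_cancel]
  · intro k χ hχ R b
    refine ⟨fun hb => ?_, fun hb => ?_⟩
    · obtain ⟨hbd, hbR, hev⟩ := exists_tw hu ht htv σ hσ hχ hb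
      have h7 := DS_diff hbR hbd hbd hev (by simp)
      have h9 := (h7.comp he').add (h2 ⟨k, χ⟩ hχ).2
      rw [zero_add] at h9
      refine h9.congr fun j => ?_
      rw [Function.comp_apply, residue_eq, sub_add_cancel]
    · obtain ⟨hbd, hbR, hev⟩ := exists_tsq hu ht hP.1 htv σ hσ hχ hb
      have h7 := DS_diff hbR hbd hbd hev (by simp)
      have h9 := (h7.comp he').add (g2 ⟨k, χ⟩ hχ).2
      rw [zero_add] at h9
      refine h9.congr fun j => ?_
      rw [Function.comp_apply, residue_eq, sub_add_cancel]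

end

end Pool.Agent.Q11.MS
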