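import Pool.Agent.Q11.MS.Core

/-! The spectral theorem with the mean squares. -/

set_option autoImplicit false

namespace Pool.Agent.Q11.MS

open Complex Filter Topology ComplexConjugate NumberField IsDedekindDomain
  Pool.Agent.W401.Cheb Pool.Agent.W540.BE Pool.Agent.W353.L1 Pool.Agent.W353.AT
  Pool.Agent.W353.SP Pool.Agent.W353.FB
open Pool.Agent.W353.NF (act fixn fixn_le)
open Pool.Agent.W353.TD (ch rank)

section
variable {K : Type} [Field K] [NumberField K] {ι : Type} {l : Filter ι}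
  {E : ι → (HeightOneSpectrum (𝓞 K) → ℝ) → ℝ}
  {V : Type} [AddCommGroup V] [Module ℚ V] [FiniteDimensional ℚ V]
  {ρ : Representation ℚ (GK K) V}

/-- subsequences -/
theorem hs_sub {E : ℕ → (HeightOneSpectrum (𝓞 K) → ℝ) → ℝ} {f : HeightOneSpectrum (𝓞 K) → ℝ}
    {a : ℝ} (h : Hs atTop E f a) {φ : ℕ → ℕ} (hφ : StrictMono φ) :
    Hs atTop (fun n => E (φ n)) f a := ⟨h.1, h.2.comp hφ.tendsto_atTop⟩

/-- the mean value of the number of fixed embeddings -/
theorem hs_fixn (h : Mn l E) (F : IntermediateField K (AlgebraicClosure K)) [NumberField F]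
    (σ : HeightOneSpectrum (𝓞 K) → GK K) (hσ : ∀ v, IsFrob v (σ v)) :
    Hs l E (fun v => (fixn K F (σ v) : ℝ)) 1 := by
  classical
  let τ : Representation ℚ (GK K) ℚ := Representation.trivial ℚ (GK K) ℚ
  have h1 := h.fixMean τ ⟨⊤, isOpen_univ, fun u _ => rfl⟩ F.val σ hσ
  refine h1.congr (fun v => ?_) ?_
  · have e : ch τ (σ v)⁻¹ = 1 := by
      unfold ch
      have e1 : τ (σ v)⁻¹ = LinearMap.id := rfl
      rw [e1, LinearMap.trace_id, Module.finrank_self]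
      norm_num
    rw [e, one_mul]
  · have e : Pool.Agent.W353.TD.inv τ F.val.fieldRange.fixingSubgroup = ⊤ := by
      rw [eq_top_iff]
      intro w _ g _
      rfl
    rw [e, finrank_top, Module.finrank_self, Nat.cast_one]

/-- **The spectral theorem for a function close to an algebraic part, with the mean squares.** -/
theorem spectralSq (h : Mn l E) {t : HeightOneSpectrum (𝓞 K) → ℝ} (ht : Bd t)
    (hρ : ∃ U : Subgroup (GK K), IsOpen (U : Set (GK K)) ∧ ∀ u ∈ U, ρ u = 1) (s : ℕ)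
    (σ : HeightOneSpectrum (𝓞 K) → GK K) (hσ : ∀ v, IsFrob v (σ v))
    (hs : ∀ η : ℝ, 0 < η → ∀ᶠ v in cofinite, |t v - ch ρ (σ v)⁻¹| ≤ s + η) {z : ℕ → ι}
    (hz : Tendsto z atTop l) :
    ∃ φ : ℕ → ℕ, StrictMono φ ∧
      ∃ (δF rF : IntermediateField K (AlgebraicClosure K) → ℝ) (δA qA : MRep (GK K) → ℝ),
      (∀ (F : IntermediateField K (AlgebraicClosure K)) [NumberField F],
        Hs atTop (fun j => E (z (φ j))) (fun v => t v * fixn K F (σ v)) (rank ρ F - δF F)) ∧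
      (∀ x, IsArtin x.2 → Hs atTop (fun j => E (z (φ j)))
        (fun v => t v * RR x.2 0 σ v) (twistRank ρ x.2 - δA x)) ∧
      (∀ (F : IntermediateField K (AlgebraicClosure K)) [NumberField F],
        Hs atTop (fun j => E (z (φ j))) (fun v => (t v - ch ρ (σ v)⁻¹) ^ 2 * fixn K F (σ v))
          (rF F)) ∧
      (∀ x, IsArtin x.2 → Hs atTop (fun j => E (z (φ j)))
        (fun v => (t v - ch ρ (σ v)⁻¹) ^ 2 * RR x.2 0 σ v) (qA x)) ∧
      ((∀ S : Finset (MRep (GK K)), (∀ p ∈ S, Irr p) →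
        (∀ p ∈ S, ∀ q ∈ S, p ≠ q → ¬ Sim p q) → ∑ p ∈ S, (δA p) ^ 2 ≤ (s : ℝ) ^ 2) ∧
      (∀ (F : IntermediateField K (AlgebraicClosure K)) [NumberField F],
        ∃ S : Finset (MRep (GK K)), (∀ p ∈ S, Irr p) ∧
          (∀ p ∈ S, ∀ q ∈ S, p ≠ q → ¬ Sim p q) ∧
          (∀ x, Irr x → (∀ p ∈ S, ¬ Sim x p) → fixedDim x.2 F = 0) ∧
          δF F = ∑ p ∈ S, δA p * fixedDim p.2 F) ∧
      (∀ (c : ℕ) (η : ℝ), 0 < η → ∃ M : IntermediateField K (AlgebraicClosure K),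
        FiniteDimensional K M ∧ IsGalois K M ∧
        ∀ (F : IntermediateField K (AlgebraicClosure K)) [NumberField F],
          Module.finrank K F ≤ c → |δF F - δF (F ⊓ M)| < η)) ∧
      ((∀ S : Finset (MRep (GK K)), (∀ p ∈ S, Irr p) →
        (∀ p ∈ S, ∀ q ∈ S, p ≠ q → ¬ Sim p q) →
          ∑ p ∈ S, (qA p) ^ 2 ≤ (((s ^ 2 : ℕ)) : ℝ) ^ 2) ∧
      (∀ (F : IntermediateField K (AlgebraicClosure K)) [NumberField F],
        ∃ S : Finset (MRep (GK K)), (∀ p ∈ S, Irr p) ∧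
          (∀ p ∈ S, ∀ q ∈ S, p ≠ q → ¬ Sim p q) ∧
          (∀ x, Irr x → (∀ p ∈ S, ¬ Sim x p) → fixedDim x.2 F = 0) ∧
          rF F = ∑ p ∈ S, qA p * fixedDim p.2 F) ∧
      (∀ (c : ℕ) (η : ℝ), 0 < η → ∃ M : IntermediateField K (AlgebraicClosure K),
        FiniteDimensional K M ∧ IsGalois K M ∧
        ∀ (F : IntermediateField K (AlgebraicClosure K)) [NumberField F],
          Module.finrank K F ≤ c → |rF F - rF (F ⊓ M)| < η)) ∧
      (∀ (F : IntermediateField K (AlgebraicClosure K)) [NumberField F],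
        δF F ^ 2 ≤ rF F ∧ rF F ≤ (s : ℝ) ^ 2) ∧
      (∀ (κ : Type) [Fintype κ] (n : κ → ℕ)
        (χ : ∀ k, Representation ℂ (GK K) (Fin (n k) → ℂ)), (∀ k, IsArtin (χ k)) →
        (∀ k, (χ k).IsIrreducible) → (∀ k k', k ≠ k' → IsEmpty ((χ k).Equiv (χ k'))) →
        ∑ k, δA ⟨n k, χ k⟩ ^ 2 ≤
          qA ⟨1, Representation.trivial ℂ (GK K) (Fin 1 → ℂ)⟩) ∧
      (∀ (U : Subgroup (GK K)) [U.Normal], IsOpen (U : Set (GK K)) →
        ∀ (κ : Type) [Fintype κ] (n : κ → ℕ)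
        (χ : ∀ k, Representation ℂ (GK K) (Fin (n k) → ℂ)), (∀ k, ∀ u ∈ U, χ k u = 1) →
        (∀ k, (χ k).IsIrreducible) → (∀ k k', k ≠ k' → IsEmpty ((χ k).Equiv (χ k'))) →
        ∑ k, n k ^ 2 = Nat.card (GK K ⧸ U) →
        ∀ g, ‖∑ k, (δA ⟨n k, χ k⟩ : ℂ) * (χ k).character g‖ ^ 2 ≤
            (∑ k, (qA ⟨n k, χ k⟩ : ℂ) * (χ k).character g).re ∧
          (∑ k, (qA ⟨n k, χ k⟩ : ℂ) * (χ k).character g).re ≤ (s : ℝ) ^ 2) := by
  classical
  set T : HeightOneSpectrum (𝓞 K) → ℝ := fun v => cut s (t v - ch ρ (σ v)⁻¹) with hTdef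
  have hT : ∀ v, |T v| ≤ (s : ℝ) := fun v => abs_cut (Nat.cast_nonneg s) _
  have hT2 : ∀ v, |T v ^ 2| ≤ (((s ^ 2 : ℕ)) : ℝ) := fun v => by
    rw [abs_pow]
    push_cast
    exact pow_le_pow_left₀ (abs_nonneg _) (hT v) 2
  obtain ⟨φ₁, hφ₁, hconv₁⟩ := exists_sub h σ (T := T) ⟨s, hT⟩ hz
  have h₁ : Mn atTop fun j => E (z (φ₁ j)) := h.comp (hz.comp hφ₁.tendsto_atTop)
  obtain ⟨φ₂, hφ₂, hconv₂⟩ := exists_sub h₁ σ (T := fun v => T v ^ 2) ⟨_, hT2⟩ tendsto_id
  set φ : ℕ → ℕ := fun j => φ₁ (φ₂ j) with hφdef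
  have hφ : StrictMono φ := hφ₁.comp hφ₂
  have h' : Mn atTop fun j => E (z (φ j)) := h.comp (hz.comp hφ.tendsto_atTop)
  have hconv : ∀ U : Subgroup (GK K), IsOpen (U : Set (GK K)) →
      ∀ f : GK K → ℝ, (∀ g, ∀ u ∈ U, f (g * u) = f g) →
      ∃ m : ℝ, Hs atTop (fun n => E (z (φ n))) (fun v => T v * f (σ v)) m := by
    intro U hU f hf
    obtain ⟨m, hm⟩ := hconv₁ U hU f hf
    exact ⟨m, hs_sub hm hφ₂⟩
  obtain ⟨zF, zA, h1, h2, h3, h4, h5⟩ := spectral h' hσ (Nat.cast_nonneg s) hT hconv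
  obtain ⟨rF, qA, g1, g2, g3, g4, g5⟩ := spectral h' hσ (Nat.cast_nonneg (s ^ 2)) hT2 hconv₂
  have key : ∀ (g : HeightOneSpectrum (𝓞 K) → ℝ) (a b : ℝ), Bd g →
      Hs atTop (fun j => E (z (φ j))) (fun v => T v * g v) a →
      Hs atTop (fun j => E (z (φ j))) (fun v => ch ρ (σ v)⁻¹ * g v) b →
      Hs atTop (fun j => E (z (φ j))) (fun v => t v * g v) (b + a) := by
    intro g a b hg ha hb
    have hψ : Hs atTop (fun j => E (z (φ j))) (fun v => t v * g v +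
        ((-1) * (T v * g v) + (-1) * (ch ρ (σ v)⁻¹ * g v))) 0 := by
      refine hsSmall h' ((ht.mul hg).add (((Bd.const (-1)).mul ha.1).add
        ((Bd.const (-1)).mul hb.1))) fun η hη => ?_
      obtain ⟨G, hG⟩ := hg
      have hG0 : 0 < |G| + 1 := by positivity
      filter_upwards [hs (η / (|G| + 1)) (by positivity)] with v hv
      have h6 := cut_sub (Nat.cast_nonneg s) (by positivity : 0 ≤ η / (|G| + 1)) hv
      have e : t v * g v + ((-1) * (T v * g v) + (-1) * (ch ρ (σ v)⁻¹ * g v)) =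
          ((t v - ch ρ (σ v)⁻¹) - cut s (t v - ch ρ (σ v)⁻¹)) * g v := by
        rw [hTdef]
        ring
      rw [e, abs_mul]
      calc _ ≤ η / (|G| + 1) * (|G| + 1) := by
            refine mul_le_mul h6 ?_ (abs_nonneg _) (by positivity)
            exact ((hG v).trans (le_abs_self G)).trans (by linarith)
        _ = η := div_mul_cancel₀ _ hG0.ne'
    exact (h'.hsAdd hψ (h'.hsAdd hb ha)).congr (fun v => by ring) (by ring)
  have hchb : Bd fun v => ch ρ (σ v)⁻¹ := by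
    have h6 := (h'.twMean ρ hρ ⟨1, Representation.trivial ℂ (GK K) (Fin 1 → ℂ)⟩
      ⟨⊤, isOpen_univ, fun u _ => rfl⟩ σ hσ).1
    obtain ⟨B, hB⟩ := h6
    refine ⟨B, fun v => ?_⟩
    have h7 := hB v
    change |ch ρ (σ v)⁻¹ * RR (Representation.trivial ℂ (GK K) (Fin 1 → ℂ)) 0 σ v| ≤ B at h7
    rw [RR_zero] at h7
    have e : (Representation.trivial ℂ (GK K) (Fin 1 → ℂ)).character (σ v)⁻¹ = 1 := by
      unfold Representation.character
      have e1 : (Representation.trivial ℂ (GK K) (Fin 1 → ℂ)) (σ v)⁻¹ = LinearMap.id := rfl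
      rw [e1, LinearMap.trace_id, Module.finrank_fin_fun, Nat.cast_one]
    rwa [e, Complex.one_re, mul_one] at h7
  have hxb : Bd fun v => t v - ch ρ (σ v)⁻¹ := by
    obtain ⟨B, hB⟩ := ht
    obtain ⟨B', hB'⟩ := hchb
    refine ⟨B + B', fun v => ?_⟩
    exact (abs_sub _ _).trans (add_le_add (hB v) (hB' v))
  have keysq : ∀ (g : HeightOneSpectrum (𝓞 K) → ℝ) (a : ℝ), Bd g →
      Hs atTop (fun j => E (z (φ j))) (fun v => T v ^ 2 * g v) a →
      Hs atTop (fun j => E (z (φ j))) (fun v => (t v - ch ρ (σ v)⁻¹) ^ 2 * g v) a := by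
    intro g a hg ha
    have hx2 : Bd fun v => (t v - ch ρ (σ v)⁻¹) ^ 2 * g v := by
      have h6 := (hxb.mul hxb).mul hg
      obtain ⟨B, hB⟩ := h6
      refine ⟨B, fun v => ?_⟩
      change |(t v - ch ρ (σ v)⁻¹) ^ 2 * g v| ≤ B
      rw [pow_two]
      exact hB v
    have hψ : Hs atTop (fun j => E (z (φ j))) (fun v => (t v - ch ρ (σ v)⁻¹) ^ 2 * g v +
        (-1) * (T v ^ 2 * g v)) 0 := by
      refine hsSmall h' (hx2.add ((Bd.const (-1)).mul ha.1)) fun η hη => ?_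
      obtain ⟨G, hG⟩ := hg
      obtain ⟨B, hB⟩ := hxb
      have hG0 : 0 < (|B| + s + 1) * (|G| + 1) := by positivity
      filter_upwards [hs (η / ((|B| + s + 1) * (|G| + 1))) (by positivity)] with v hv
      have h6 := cut_sub (Nat.cast_nonneg s)
        (by positivity : 0 ≤ η / ((|B| + s + 1) * (|G| + 1))) hv
      have e : (t v - ch ρ (σ v)⁻¹) ^ 2 * g v + (-1) * (T v ^ 2 * g v) =
          ((t v - ch ρ (σ v)⁻¹) - cut s (t v - ch ρ (σ v)⁻¹)) *
            (((t v - ch ρ (σ v)⁻¹) + T v) * g v) := by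
        rw [hTdef]
        ring
      have h7 : |((t v - ch ρ (σ v)⁻¹) + T v) * g v| ≤ (|B| + s + 1) * (|G| + 1) := by
        rw [abs_mul]
        refine mul_le_mul ?_ (((hG v).trans (le_abs_self G)).trans (by linarith))
          (abs_nonneg _) (by positivity)
        refine (abs_add_le _ _).trans ?_
        have := (hB v).trans (le_abs_self B)
        have := hT v
        linarith
      rw [e, abs_mul]
      calc _ ≤ η / ((|B| + s + 1) * (|G| + 1)) * ((|B| + s + 1) * (|G| + 1)) :=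
            mul_le_mul h6 h7 (abs_nonneg _) (by positivity)
        _ = η := div_mul_cancel₀ _ hG0.ne'
    exact (h'.hsAdd hψ ha).congr (fun v => by ring) (by ring)
  have htrivR : ∀ v, RR (Representation.trivial ℂ (GK K) (Fin 1 → ℂ)) 0 σ v = 1 := by
    intro v
    rw [RR_zero]
    unfold Representation.character
    have e1 : (Representation.trivial ℂ (GK K) (Fin 1 → ℂ)) (σ v)⁻¹ = LinearMap.id := rfl
    rw [e1, LinearMap.trace_id, Module.finrank_fin_fun, Nat.cast_one, Complex.one_re]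
  refine ⟨φ, hφ, fun F => -zF F, rF, fun x => -zA x, qA, fun F _ => ?_, fun x hx => ?_,
    fun F _ => keysq _ _ (bd_fixn σ) (g1 F), fun x hx => keysq _ _ (bd_RR hx σ) (g2 x hx),
    ⟨fun S hS1 hS2 => ?_, fun F _ => ?_, fun c η hη => ?_⟩, ⟨g3, fun F _ => g4 F, g5⟩,
    fun F _ => ?_, fun κ _ n χ hA hirr hne => ?_, fun U _ hU κ _ n χ hχ hirr hne hsum g => ?_⟩
  · have h6 := h'.fixMean ρ hρ F.val σ hσ
    refine (key _ _ _ (bd_fixn σ) (h1 F) h6).congr (fun v => rfl) ?_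
    have hr : rank ρ F = Module.finrank ℚ (Pool.Agent.W353.TD.inv ρ F.val.fieldRange.fixingSubgroup) := by
      rw [Pool.Agent.W353.TD.inv_eq, IntermediateField.fieldRange_val]
      rfl
    rw [hr]
    ring
  · refine (key _ _ _ (bd_RR hx σ) (h2 x hx) (h'.twMean ρ hρ x hx σ hσ)).congr
      (fun v => rfl) ?_
    ring
  · simp only [neg_sq]
    exact h3 S hS1 hS2
  · obtain ⟨S, hS1, hS2, hS3, hS4⟩ := h4 F
    refine ⟨S, hS1, hS2, hS3, ?_⟩
    change -zF F = ∑ p ∈ S, -zA p * fixedDim p.2 F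
    rw [hS4, ← Finset.sum_neg_distrib]
    exact Finset.sum_congr rfl fun p _ => by ring
  · obtain ⟨M, hM1, hM2, hM3⟩ := h5 c η hη
    refine ⟨M, hM1, hM2, fun F _ hF => ?_⟩
    have h6 := hM3 F hF
    change |-zF F - -zF (F ⊓ M)| < η
    have e : -zF F - -zF (F ⊓ M) = -(zF F - zF (F ⊓ M)) := by ring
    rw [e, abs_neg]
    exact h6
  · have hf := hs_fixn h' F σ hσ
    constructor
    · have hR := h'.hsAdd (g1 F) (h'.hsMul hf (zF F ^ 2))
      have hle := Hs.le h' (h'.hsMul (h1 F) (2 * zF F)) hR fun v => ?_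
      · simp only [neg_sq]
        nlinarith
      · have h0 : (0 : ℝ) ≤ fixn K F (σ v) := Nat.cast_nonneg _
        nlinarith [mul_nonneg h0 (sq_nonneg (T v - zF F))]
    · have hle := Hs.le h' (g1 F) (h'.hsMul hf ((s : ℝ) ^ 2)) fun v => ?_
      · linarith
      · refine mul_le_mul_of_nonneg_right ?_ (Nat.cast_nonneg _)
        have h6 := hT2 v
        push_cast at h6
        exact (le_abs_self _).trans h6
  · simp only [neg_sq]
    obtain ⟨U, hUn, hU, hρU⟩ := exists_common χ hA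
    have hfin : Finite (GK K ⧸ U) := Subgroup.quotient_finite_of_isOpen U hU
    have hq : Hs atTop (fun j => E (z (φ j))) (fun v => T v ^ 2)
        (qA ⟨1, Representation.trivial ℂ (GK K) (Fin 1 → ℂ)⟩) := by
      refine (g2 ⟨1, Representation.trivial ℂ (GK K) (Fin 1 → ℂ)⟩
        ⟨⊤, isOpen_univ, fun u _ => rfl⟩).congr (fun v => ?_) rfl
      change T v ^ 2 * RR (Representation.trivial ℂ (GK K) (Fin 1 → ℂ)) 0 σ v = T v ^ 2
      rw [htrivR, mul_one]
    exact bessel2 h' U hU Finset.univ χ hρU σ hσ hq (fun k _ => hirr k)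
      (fun k _ k' _ hkk => hne k k' hkk) (fun k _ => h2 ⟨n k, χ k⟩ (hA k))
  · have hfin : Finite (GK K ⧸ U) := Subgroup.quotient_finite_of_isOpen U hU
    have h6 := ptLaw h' U hU χ hχ σ hσ (Nat.cast_nonneg s) hT hirr hne hsum
      (y := fun k => zA ⟨n k, χ k⟩) (q := fun k => qA ⟨n k, χ k⟩)
      (fun k => h2 ⟨n k, χ k⟩ ⟨U, hU, hχ k⟩) (fun k => g2 ⟨n k, χ k⟩ ⟨U, hU, hχ k⟩) g
    have e : ∑ k, (((-zA ⟨n k, χ k⟩ : ℝ)) : ℂ) * (χ k).character g =
        -∑ k, ((zA ⟨n k, χ k⟩ : ℝ) : ℂ) * (χ k).character g := by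
      rw [← Finset.sum_neg_distrib]
      refine Finset.sum_congr rfl fun k _ => ?_
      push_cast
      ring
    rw [e, norm_neg]
    exact h6

end

end Pool.Agent.Q11.MS
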